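import Pool.Agent.H80.HS.Targets

namespace Pool.Agent.H40.HS.S5
open MeasureTheory Set Pool.Agent.H80.HS
open scoped ContDiff ENNReal

private lemma measurable_sX {n : ℕ} {F : Set (H n)} (hF : IsClosed F) :
    Measurable (fun q : V n × ℝ => sX F q.1 q.2) := by
  have h1 : MeasurableSet {z : (V n × ℝ) × V n |
      ((z.2, z.1.1, z.1.2 + 2 * inner ℝ z.2 z.1.1) : H n) ∈ F} := by
    apply IsClosed.measurableSet
    exact hF.preimage (by fun_prop)
  exact measurable_measure_prodMk_left h1

theorem s5 : T_B6 → T_S1 → T_S3 → T_S5 := by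
  intro hB hS1 hS3 n hn w θ hw hc h0 hθ
  set F : Set (H n) := {p | θ ≤ w p} with hFdef
  have hF : IsClosed F := isClosed_le continuous_const hw.continuous
  have hmW : Measurable (fun p : H n => WX F p ^ (-(1 / (n : ℝ)))) := by
    apply Measurable.pow_const
    unfold WX
    exact (measurable_sX hF).comp (g := fun q : V n × ℝ => sX F q.1 q.2)
      (f := fun p : H n => (p.2.1, p.2.2 - 2 * inner ℝ p.1 p.2.1))
      (Continuous.measurable (by fun_prop))
  rw [← lintegral_indicator hF.measurableSet,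
    hS1 n _ (hmW.indicator hF.measurableSet)]
  have hin : ∀ q : V n × ℝ, (∫⁻ x : V n, F.indicator (fun p : H n => WX F p ^ (-(1 / (n : ℝ))))
      (x, q.1, q.2 + 2 * inner ℝ x q.1)) = sX F q.1 q.2 * sX F q.1 q.2 ^ (-(1 / (n : ℝ))) := by
    intro q
    have h1 : ∀ x : V n, F.indicator (fun p : H n => WX F p ^ (-(1 / (n : ℝ))))
        (x, q.1, q.2 + 2 * inner ℝ x q.1) =
        {x : V n | ((x, q.1, q.2 + 2 * inner ℝ x q.1) : H n) ∈ F}.indicator
          (fun _ => sX F q.1 q.2 ^ (-(1 / (n : ℝ)))) x := by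
      intro x
      by_cases hx : ((x, q.1, q.2 + 2 * inner ℝ x q.1) : H n) ∈ F
      · rw [indicator_of_mem hx,
          indicator_of_mem (s := {x : V n | ((x, q.1, q.2 + 2 * inner ℝ x q.1) : H n) ∈ F}) hx]
        simp [WX]
      · rw [indicator_of_notMem hx,
          indicator_of_notMem (s := {x : V n | ((x, q.1, q.2 + 2 * inner ℝ x q.1) : H n) ∈ F}) hx]
    simp_rw [h1]
    have hm : MeasurableSet {x : V n | ((x, q.1, q.2 + 2 * inner ℝ x q.1) : H n) ∈ F} := by
      apply IsClosed.measurableSet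
      exact hF.preimage (by fun_prop)
    rw [lintegral_indicator hm, setLIntegral_const, mul_comm]
    rfl
  simp_rw [hin]
  rw [← lintegral_const_mul' _ _ ENNReal.ofReal_ne_top]
  have hstep : ∀ q : V n × ℝ,
      ENNReal.ofReal θ * (sX F q.1 q.2 * sX F q.1 q.2 ^ (-(1 / (n : ℝ)))) ≤
      ENNReal.ofReal (K n) * ∫⁻ x : V n, ENNReal.ofReal
        (gX w (x, q.1, q.2 + 2 * inner ℝ x q.1)) := by
    intro q
    obtain ⟨hd, hg⟩ := hS3 n w q.1 q.2 hw
    have hcs : HasCompactSupport (fun x : V n => w (x, q.1, q.2 + 2 * inner ℝ x q.1)) := by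
      apply HasCompactSupport.intro (hc.isCompact.image continuous_fst)
      intro x hx
      by_contra hne
      exact hx ⟨(x, q.1, q.2 + 2 * inner ℝ x q.1), subset_tsupport _ hne, rfl⟩
    have hb := hB n hn (fun x : V n => w (x, q.1, q.2 + 2 * inner ℝ x q.1)) θ hd hcs
      (fun x => h0 _) hθ
    have he : ∀ x : V n, ‖fderiv ℝ (fun x : V n => w (x, q.1, q.2 + 2 * inner ℝ x q.1)) x‖ₑ =
        ENNReal.ofReal (gX w (x, q.1, q.2 + 2 * inner ℝ x q.1)) := by
      intro x
      rw [← hg x, ofReal_norm]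
    simp_rw [he] at hb
    exact hb
  refine (lintegral_mono hstep).trans ?_
  rw [lintegral_const_mul' _ _ ENNReal.ofReal_ne_top, ← hS1 n (fun p => ENNReal.ofReal (gX w p))
    (continuous_gX hw).measurable.ennreal_ofReal,
    ← ofReal_integral_eq_lintegral_ofReal (integrable_gX hw hc)
      (Filter.Eventually.of_forall fun p => gX_nonneg w p),
    ENNReal.ofReal_mul (K_pos hn).le]

end Pool.Agent.H40.HS.S5
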