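import Pool.Agent.H80.HS.Targets

namespace Pool.Agent.H40.HS.S6
open MeasureTheory Set Pool.Agent.H80.HS
open scoped ContDiff ENNReal

private lemma measurable_sY {n : ℕ} {F : Set (H n)} (hF : IsClosed F) :
    Measurable (fun q : V n × ℝ => sY F q.1 q.2) := by
  have h1 : MeasurableSet {z : (V n × ℝ) × V n |
      ((z.1.1, z.2, z.1.2 - 2 * inner ℝ z.1.1 z.2) : H n) ∈ F} := by
    apply IsClosed.measurableSet
    exact hF.preimage (by fun_prop)
  exact measurable_measure_prodMk_left h1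

theorem s6 : T_B6 → T_S2 → T_S4 → T_S6 := by
  intro hB hS2 hS4 n hn w θ hw hc h0 hθ
  set F : Set (H n) := {p | θ ≤ w p} with hFdef
  have hF : IsClosed F := isClosed_le continuous_const hw.continuous
  have hmW : Measurable (fun p : H n => WY F p ^ (-(1 / (n : ℝ)))) := by
    apply Measurable.pow_const
    unfold WY
    exact (measurable_sY hF).comp (g := fun q : V n × ℝ => sY F q.1 q.2)
      (f := fun p : H n => (p.1, p.2.2 + 2 * inner ℝ p.1 p.2.1))
      (Continuous.measurable (by fun_prop))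
  rw [← lintegral_indicator hF.measurableSet,
    hS2 n _ (hmW.indicator hF.measurableSet)]
  have hin : ∀ q : V n × ℝ, (∫⁻ y : V n, F.indicator (fun p : H n => WY F p ^ (-(1 / (n : ℝ))))
      (q.1, y, q.2 - 2 * inner ℝ q.1 y)) = sY F q.1 q.2 * sY F q.1 q.2 ^ (-(1 / (n : ℝ))) := by
    intro q
    have h1 : ∀ y : V n, F.indicator (fun p : H n => WY F p ^ (-(1 / (n : ℝ))))
        (q.1, y, q.2 - 2 * inner ℝ q.1 y) =
        {y : V n | ((q.1, y, q.2 - 2 * inner ℝ q.1 y) : H n) ∈ F}.indicator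
          (fun _ => sY F q.1 q.2 ^ (-(1 / (n : ℝ)))) y := by
      intro y
      by_cases hx : ((q.1, y, q.2 - 2 * inner ℝ q.1 y) : H n) ∈ F
      · rw [indicator_of_mem hx,
          indicator_of_mem (s := {y : V n | ((q.1, y, q.2 - 2 * inner ℝ q.1 y) : H n) ∈ F}) hx]
        simp [WY]
      · rw [indicator_of_notMem hx,
          indicator_of_notMem (s := {y : V n | ((q.1, y, q.2 - 2 * inner ℝ q.1 y) : H n) ∈ F}) hx]
    simp_rw [h1]
    have hm : MeasurableSet {y : V n | ((q.1, y, q.2 - 2 * inner ℝ q.1 y) : H n) ∈ F} := by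
      apply IsClosed.measurableSet
      exact hF.preimage (by fun_prop)
    rw [lintegral_indicator hm, setLIntegral_const, mul_comm]
    rfl
  simp_rw [hin]
  rw [← lintegral_const_mul' _ _ ENNReal.ofReal_ne_top]
  have hstep : ∀ q : V n × ℝ,
      ENNReal.ofReal θ * (sY F q.1 q.2 * sY F q.1 q.2 ^ (-(1 / (n : ℝ)))) ≤
      ENNReal.ofReal (K n) * ∫⁻ y : V n, ENNReal.ofReal
        (gY w (q.1, y, q.2 - 2 * inner ℝ q.1 y)) := by
    intro q
    obtain ⟨hd, hg⟩ := hS4 n w q.1 q.2 hw
    have hcs : HasCompactSupport (fun y : V n => w (q.1, y, q.2 - 2 * inner ℝ q.1 y)) := by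
      apply HasCompactSupport.intro (hc.isCompact.image (continuous_fst.comp continuous_snd))
      intro y hx
      by_contra hne
      exact hx ⟨(q.1, y, q.2 - 2 * inner ℝ q.1 y), subset_tsupport _ hne, rfl⟩
    have hb := hB n hn (fun y : V n => w (q.1, y, q.2 - 2 * inner ℝ q.1 y)) θ hd hcs
      (fun _ => h0 _) hθ
    have he : ∀ y : V n, ‖fderiv ℝ (fun y : V n => w (q.1, y, q.2 - 2 * inner ℝ q.1 y)) y‖ₑ =
        ENNReal.ofReal (gY w (q.1, y, q.2 - 2 * inner ℝ q.1 y)) := by
      intro y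
      rw [← hg y, ofReal_norm]
    simp_rw [he] at hb
    exact hb
  refine (lintegral_mono hstep).trans ?_
  rw [lintegral_const_mul' _ _ ENNReal.ofReal_ne_top, ← hS2 n (fun p => ENNReal.ofReal (gY w p))
    (continuous_gY hw).measurable.ennreal_ofReal,
    ← ofReal_integral_eq_lintegral_ofReal (integrable_gY hw hc)
      (Filter.Eventually.of_forall fun p => gY_nonneg w p),
    ENNReal.ofReal_mul (K_pos hn).le]

end Pool.Agent.H40.HS.S6
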